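import Pool.Agent.KDeg.Count

/-!
# Kummer motives: no relations of bounded degree between the periods at generic points of groups of
large rank

The periods of the motive `H^1(G_m, {1, t_1, …, t_n})` are `2πi` and the logarithms of the `t_j`.
Let `N = binom(n+k+1+D, D)`, let `θ_1, …, θ_k` be any complex numbers (for example all periods of a
fixed motive) and let `α_1, …, α_m`, `m ≥ N`, be multiplicatively independent complex numbers. For
all integer matrices `a` outside the zero set of a nonzero polynomial of degree at most `N D`, the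
logarithms of `t_j = ∏ α_i^(a_ji)` satisfy no new relation of degree at most `D` with `2πi` and the
`θ`: a polynomial `P` of total degree at most `D` with rational coefficients (no bound for their
size) with `P(log t; 2πi, θ) = 0` satisfies `P(z; 2πi, θ) = 0` identically in `z`.
-/

set_option autoImplicit false

namespace Pool.Agent.KDeg.BoundedDegree

open MvPolynomial

/-- The numbers `2πi, θ_1, …, θ_k`. -/
noncomputable def base {k : ℕ} (θ : Fin k → ℂ) : Fin (k + 1) → ℂ :=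
  Fin.cons (2 * (Real.pi : ℂ) * Complex.I) θ

/-- `ℓ_j` is a logarithm (any branch) of `t_j = ∏_i α_i^(a_ji)`. -/
def IsLog {n m : ℕ} (α : Fin m → ℂ) (a : Fin n × Fin m → ℤ) (ℓ : Fin n → ℂ) : Prop :=
  ∀ j, Complex.exp (ℓ j) = ∏ i, α i ^ a (j, i)

/-- Every polynomial `P` with rational coefficients and total degree at most `D` that vanishes at
`(ℓ; 2πi, θ)` vanishes at `(z; 2πi, θ)` identically in `z = (z_1, …, z_n)`. -/
def Free {n k : ℕ} (D : ℕ) (θ : Fin k → ℂ) (ℓ : Fin n → ℂ) : Prop :=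
  ∀ P : MvPolynomial (Fin n ⊕ Fin (k + 1)) ℚ, P.totalDegree ≤ D →
    aeval (Sum.elim ℓ (base θ)) P = 0 →
    (aeval (Sum.elim X fun i => C (base θ i)) P : MvPolynomial (Fin n) ℂ) = 0

/-- The numbers `2πi, ℓ_1, …, ℓ_n` satisfy no nonzero polynomial relation with rational
coefficients of total degree at most `D`. -/
def Indep {n : ℕ} (D : ℕ) (ℓ : Fin n → ℂ) : Prop :=
  ∀ P : MvPolynomial (Fin n ⊕ Fin 1) ℚ, P.totalDegree ≤ D →
    aeval (Sum.elim ℓ fun _ => 2 * (Real.pi : ℂ) * Complex.I) P = 0 → P = 0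

lemma transcendental_two_pi_I : Transcendental ℚ (2 * (Real.pi : ℂ) * Complex.I) := by
  intro h
  obtain ⟨P, hP, h0⟩ := (IsFractionRing.isAlgebraic_iff ℤ ℚ ℂ).2 h
  exact KAA.tPI P hP h0

lemma algebraicIndependent_two_pi_I :
    AlgebraicIndependent ℚ fun _ : Fin 1 => 2 * (Real.pi : ℂ) * Complex.I := by
  rw [algebraicIndependent_unique_type_iff]
  exact transcendental_two_pi_I

lemma base_zero (θ : Fin 0 → ℂ) :
    base θ = fun _ : Fin 1 => 2 * (Real.pi : ℂ) * Complex.I := by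
  funext i
  have hi : i = (0 : Fin 1) := Subsingleton.elim (α := Fin 1) _ _
  rw [hi]
  rfl

lemma indep_of_free {n : ℕ} (D : ℕ) (θ : Fin 0 → ℂ) (ℓ : Fin n → ℂ) (h : Free D θ ℓ) :
    Indep D ℓ := by
  intro P hP h0
  have h1 := h P hP (by rw [base_zero]; exact h0)
  rw [base_zero] at h1
  exact Pool.Agent.KDeg.sub_injective _ algebraicIndependent_two_pi_I P h1

lemma free_of_generic {n k m : ℕ} (D : ℕ) (θ : Fin k → ℂ) (α : Fin m → ℂ) (h0 : ∀ i, α i ≠ 0)
    (a : Fin n × Fin m → ℤ)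
    (h : ∀ P : MvPolynomial (Fin n ⊕ Fin (k + 1)) ℚ, P.totalDegree ≤ D →
      aeval (Sum.elim (Pool.Agent.KDeg.pt (fun i => Complex.log (α i)) fun x => (a x : ℚ))
        (base θ)) P = 0 → Pool.Agent.KDeg.sub (base θ) P = 0)
    (ℓ : Fin n → ℂ) (hl : IsLog α a ℓ) : Free D θ ℓ := by
  have h1 : ∀ j, ∃ b : ℤ, ℓ j = Pool.Agent.KDeg.pt (fun i => Complex.log (α i))
      (fun x => (a x : ℚ)) j + (b : ℂ) * base θ 0 := by
    intro j
    have h2 : Complex.exp (ℓ j) = Complex.exp (Pool.Agent.KDeg.pt (fun i => Complex.log (α i))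
        (fun x => (a x : ℚ)) j) := by
      rw [hl j, Pool.Agent.KDeg.pt, Complex.exp_sum]
      refine Finset.prod_congr rfl (fun i _ => ?_)
      have h3 : algebraMap ℚ ℂ ((a (j, i) : ℤ) : ℚ) = ((a (j, i) : ℤ) : ℂ) := by simp
      rw [h3, Complex.exp_int_mul, Complex.exp_log (h0 i)]
    obtain ⟨b, hb⟩ := Complex.exp_eq_exp_iff_exists_int.1 h2
    exact ⟨b, hb⟩
  choose b hb using h1
  intro P hP hz
  have h4 : aeval (Sum.elim (Pool.Agent.KDeg.pt (fun i => Complex.log (α i))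
      fun x => (a x : ℚ)) (base θ)) (Pool.Agent.KDeg.sh b P) = 0 := by
    rw [Pool.Agent.KDeg.aeval_sh]
    rw [← hz]
    congr 3
    funext j
    exact (hb j).symm
  have h5 := h _ ((Pool.Agent.KDeg.totalDegree_sh b P).trans hP) h4
  have h6 := Pool.Agent.KDeg.sub_sh b (base θ) P
  rw [h5, map_zero] at h6
  exact h6.symm

theorem result (k n D m : ℕ) (hm : (n + (k + 1) + D).choose D ≤ m) (θ : Fin k → ℂ)
    (α : Fin m → ℂ) (h0 : ∀ i, α i ≠ 0)
    (hα : ∀ c : Fin m → ℤ, ∏ i, α i ^ c i = 1 → c = 0) :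
    (∃ Δ : MvPolynomial (Fin n × Fin m) ℚ, Δ ≠ 0 ∧
      Δ.totalDegree ≤ (n + (k + 1) + D).choose D * D ∧
      ∀ a : Fin n × Fin m → ℤ, eval (fun x => (a x : ℚ)) Δ ≠ 0 →
        ∀ ℓ : Fin n → ℂ, IsLog α a ℓ → Free D θ ℓ ∧ (k = 0 → Indep D ℓ)) ∧
    ∀ S : ℕ, {a : Fin n × Fin m → ℤ | (∀ x, |a x| ≤ S) ∧
        ∃ ℓ : Fin n → ℂ, IsLog α a ℓ ∧ ¬ Free D θ ℓ}.ncard * (2 * S + 1) ≤
      (n + (k + 1) + D).choose D * D * (2 * S + 1) ^ (n * m) := by
  obtain ⟨Δ, hΔ0, hΔd, hΔ⟩ := Pool.Agent.KDeg.generic (τ := Fin n) (σ := Fin (k + 1)) D (base θ)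
    (fun i => Complex.log (α i)) (Pool.Agent.KDeg.log_indep α h0 hα)
    (by rw [Fintype.card_fin, Fintype.card_fin]; exact hm)
  rw [Fintype.card_fin, Fintype.card_fin] at hΔd
  have hfree : ∀ a : Fin n × Fin m → ℤ, eval (fun x => (a x : ℚ)) Δ ≠ 0 →
      ∀ ℓ : Fin n → ℂ, IsLog α a ℓ → Free D θ ℓ := fun a ha ℓ hl =>
    free_of_generic D θ α h0 a (hΔ (fun x => (a x : ℚ)) ha) ℓ hl
  refine ⟨⟨Δ, hΔ0, hΔd, fun a ha ℓ hl => ⟨hfree a ha ℓ hl, fun hk => ?_⟩⟩, fun S => ?_⟩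
  · subst hk
    exact indep_of_free D θ ℓ (hfree a ha ℓ hl)
  · have h1 := Pool.Agent.KDeg.card_zeros_le Δ hΔ0 S _ hΔd
    rw [Fintype.card_prod, Fintype.card_fin, Fintype.card_fin] at h1
    refine le_trans (Nat.mul_le_mul_right _ ?_) h1
    refine Set.ncard_le_ncard ?_ ?_
    · rintro a ⟨ha, ℓ, hl, hn⟩
      refine ⟨ha, ?_⟩
      by_contra hne
      exact hn (hfree a hne ℓ hl)
    · refine Set.Finite.subset (Set.Finite.pi' fun _ : Fin n × Fin m =>
        Set.finite_Icc (-(S : ℤ)) S) ?_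
      rintro a ⟨ha, _⟩ x
      exact abs_le.1 (ha x)

end Pool.Agent.KDeg.BoundedDegree
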