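import Pool.Agent.KDeg.Lin

/-!
# Relations of bounded degree at generic points of a rational vector space of large dimension
-/

set_option autoImplicit false

namespace Pool.Agent.KDeg

open MvPolynomial

variable {L : Type} [Field L] [Algebra ℚ L]

/-! ## Polynomials in one variable -/

lemma generic_indep_one {r : ℕ} (G : Fin r → Polynomial L)
    (h : LinearIndependent ℚ fun l => (G l).eval 0) :
    ∃ s : ℚ, s ≠ 0 ∧ LinearIndependent ℚ fun l => (G l).eval (algebraMap ℚ L s) := by
  have hev : ∀ (x : L) (q : Polynomial L),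
      MvPolynomial.eval (fun _ : PUnit => x) ((uniqueAlgEquiv L PUnit).symm q) = q.eval x := by
    intro x q
    induction q using Polynomial.induction_on' with
    | add p q hp hq => rw [map_add, map_add, hp, hq, Polynomial.eval_add]
    | monomial n a =>
      rw [← Polynomial.C_mul_X_pow_eq_monomial]
      simp
  have h' : LinearIndependent ℚ fun l => MvPolynomial.eval
      (fun i : PUnit => algebraMap ℚ L ((fun _ : PUnit => (0 : ℚ)) i))
      ((uniqueAlgEquiv L PUnit).symm (G l)) := by
    have h1 : (fun l => MvPolynomial.eval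
      (fun i : PUnit => algebraMap ℚ L ((fun _ : PUnit => (0 : ℚ)) i))
      ((uniqueAlgEquiv L PUnit).symm (G l))) = fun l => (G l).eval 0 := by
      funext l
      simp only [map_zero]
      rw [hev]
    rw [h1]
    exact h
  obtain ⟨Δ, hΔ0, hΔ⟩ := generic_indep (fun l => (uniqueAlgEquiv L PUnit).symm (G l)) _ h'
  set d : Polynomial ℚ := uniqueAlgEquiv ℚ PUnit Δ with hd
  have hdev : ∀ s : ℚ, d.eval s = MvPolynomial.eval (fun _ : PUnit => s) Δ := by
    intro s
    have h2 : ∀ q : MvPolynomial PUnit ℚ, (uniqueAlgEquiv ℚ PUnit q).eval s =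
        MvPolynomial.eval (fun _ : PUnit => s) q := by
      intro q
      induction q using MvPolynomial.induction_on with
      | C a => simp
      | add p q hp hq => rw [map_add, Polynomial.eval_add, hp, hq, map_add]
      | mul_X p i hp => rw [map_mul, Polynomial.eval_mul, hp, map_mul]; simp
    exact h2 Δ
  have hd0 : d ≠ 0 := by
    intro h0
    apply hΔ0
    have h3 := hdev 0
    rw [h0, Polynomial.eval_zero] at h3
    exact h3.symm
  have hne : d * Polynomial.X ≠ 0 := mul_ne_zero hd0 Polynomial.X_ne_zero
  obtain ⟨s, hs⟩ : ∃ s : ℚ, (d * Polynomial.X).eval s ≠ 0 := by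
    by_contra hcon
    push Not at hcon
    exact hne (Polynomial.funext fun s => by rw [hcon s, Polynomial.eval_zero])
  rw [Polynomial.eval_mul, Polynomial.eval_X] at hs
  refine ⟨s, right_ne_zero_of_mul hs, ?_⟩
  have h4 := hΔ (fun _ => s) (by rw [← hdev]; exact left_ne_zero_of_mul hs)
  have h5 : (fun l => MvPolynomial.eval
      (fun i : PUnit => algebraMap ℚ L ((fun _ : PUnit => s) i))
      ((uniqueAlgEquiv L PUnit).symm (G l))) = fun l => (G l).eval (algebraMap ℚ L s) := by
    funext l
    rw [hev]
  rw [h5] at h4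
  exact h4

/-! ## Derivatives -/

variable {σ τ : Type}

lemma totalDegree_pderiv {ι R : Type} [CommRing R] (i : ι) (P : MvPolynomial ι R)
    (h : pderiv i P ≠ 0) : (pderiv i P).totalDegree + 1 ≤ P.totalDegree := by
  classical
  obtain ⟨b, hb, hbt⟩ : ∃ b ∈ (pderiv i P).support,
      (pderiv i P).totalDegree = b.sum fun _ e => e := by
    have hne : (pderiv i P).support.Nonempty := by
      rw [Finset.nonempty_iff_ne_empty, Ne, support_eq_empty]
      exact h
    obtain ⟨b, hb, h2⟩ := Finset.exists_max_image _ (fun s : ι →₀ ℕ => s.sum fun _ e => e) hne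
    exact ⟨b, hb, le_antisymm (Finset.sup_le h2) (le_totalDegree hb)⟩
  rw [mem_support_iff, coeff_pderiv] at hb
  have h3 : b + Finsupp.single i 1 ∈ P.support := by
    rw [mem_support_iff]
    exact left_ne_zero_of_mul hb
  have h4 := le_totalDegree h3
  have h5 : (b + Finsupp.single i 1).sum (fun _ e => e) = b.sum (fun _ e => e) + 1 := by
    rw [Finsupp.sum_add_index' (fun _ => rfl) (fun _ _ _ => rfl), Finsupp.sum_single_index rfl]
  omega

lemma eq_C_of_pderiv {ι R : Type} [CommRing R] [IsDomain R] [CharZero R] (p : MvPolynomial ι R)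
    (h : ∀ i, pderiv i p = 0) : p = C (coeff 0 p) := by
  classical
  ext b
  rw [coeff_C]
  by_cases hb : 0 = b
  · rw [if_pos hb, ← hb]
  · rw [if_neg hb]
    obtain ⟨i, hi⟩ : ∃ i, b i ≠ 0 := by
      by_contra hcon
      push Not at hcon
      exact hb (Finsupp.ext fun i => (hcon i).symm)
    have h1 : b = (b - Finsupp.single i 1) + Finsupp.single i 1 := by
      ext j
      by_cases hj : i = j
      · subst hj
        simp
        omega
      · simp [Finsupp.single_eq_of_ne (Ne.symm hj)]
    have h2 := coeff_pderiv (i := i) p (b - Finsupp.single i 1)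
    rw [h i, coeff_zero, ← h1] at h2
    have h3 : (((b - Finsupp.single i 1 : ι →₀ ℕ) i : R) + 1) ≠ 0 :=
      Nat.cast_add_one_ne_zero _
    exact (mul_eq_zero.1 h2.symm).resolve_right h3

/-- The polynomial with the last variables replaced by numbers. -/
noncomputable def sub (θ : σ → L) : MvPolynomial (τ ⊕ σ) ℚ →ₐ[ℚ] MvPolynomial τ L :=
  aeval (Sum.elim X fun x => C (θ x))

lemma sub_pderiv [CharZero L] [DecidableEq τ] [DecidableEq σ] (θ : σ → L) (i : τ)
    (P : MvPolynomial (τ ⊕ σ) ℚ) : sub θ (pderiv (Sum.inl i) P) = pderiv i (sub θ P) := by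
  unfold sub
  induction P using MvPolynomial.induction_on with
  | C a => rw [pderiv_C, map_zero, aeval_C, MvPolynomial.algebraMap_apply, pderiv_C]
  | add p q hp hq => simp only [map_add, hp, hq]
  | mul_X p x hp =>
    rw [pderiv_mul, map_add, map_mul, map_mul, map_mul, pderiv_mul, hp]
    congr 1
    rcases x with x | x
    · rw [pderiv_X, aeval_X, Sum.elim_inl, pderiv_X]
      by_cases hx : i = x
      · subst hx; simp
      · simp [Ne.symm hx]
    · rw [pderiv_X, aeval_X, Sum.elim_inr, pderiv_C]
      simp

lemma eval_sub (θ : σ → L) (u : τ → L) (P : MvPolynomial (τ ⊕ σ) ℚ) :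
    eval u (sub θ P) = aeval (Sum.elim u θ) P := by
  unfold sub
  induction P using MvPolynomial.induction_on with
  | C a => rw [aeval_C, aeval_C, MvPolynomial.algebraMap_apply, eval_C]
  | add p q hp hq => simp only [map_add, hp, hq]
  | mul_X p x hp =>
    rw [map_mul, map_mul, hp, map_mul, aeval_X, aeval_X]
    rcases x with x | x <;> simp

end Pool.Agent.KDeg
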