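import Pool.Agent.KDeg.Kummer

/-!
# Counting zeros of a polynomial in a box
-/

set_option autoImplicit false

namespace Pool.Agent.KDeg

open MvPolynomial

/-- The number of integer zeros of a polynomial with coordinates between `-S` and `S`. -/
lemma card_zeros_le {ι : Type} [Fintype ι] (Δ : MvPolynomial ι ℚ) (hΔ : Δ ≠ 0) (S d : ℕ)
    (hd : Δ.totalDegree ≤ d) :
    {a : ι → ℤ | (∀ x, |a x| ≤ S) ∧ eval (fun x => (a x : ℚ)) Δ = 0}.ncard * (2 * S + 1) ≤
      d * (2 * S + 1) ^ Fintype.card ι := by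
  classical
  set e := Fintype.equivFin ι with he
  set N := Fintype.card ι with hN
  set p : MvPolynomial (Fin N) ℚ := rename e Δ with hp
  have hp0 : p ≠ 0 := by
    intro h
    apply hΔ
    exact rename_injective e e.injective (h.trans (map_zero _).symm)
  have hpd : p.totalDegree ≤ d := (totalDegree_rename_le _ _).trans hd
  set F : Finset ℚ := (Finset.Icc (-(S : ℤ)) S).map ⟨fun z : ℤ => (z : ℚ), Int.cast_injective⟩
    with hF
  have hcF : F.card = 2 * S + 1 := by
    rw [hF, Finset.card_map, Int.card_Icc]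
    omega
  set Z : Finset (Fin N → ℚ) := {f ∈ Fintype.piFinset fun _ => F | eval f p = 0} with hZ
  have h1 := schwartz_zippel_totalDegree hp0 F
  rw [← hZ, hcF] at h1
  have h2 : {a : ι → ℤ | (∀ x, |a x| ≤ S) ∧ eval (fun x => (a x : ℚ)) Δ = 0}.ncard ≤ Z.card := by
    rw [← Set.ncard_coe_finset]
    refine Set.ncard_le_ncard_of_injOn (fun a i => (a (e.symm i) : ℚ)) ?_ ?_ (Z.finite_toSet)
    · rintro a ⟨ha1, ha2⟩
      rw [Finset.mem_coe, hZ, Finset.mem_filter]
      refine ⟨?_, ?_⟩
      · rw [Fintype.mem_piFinset]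
        intro i
        rw [hF, Finset.mem_map]
        refine ⟨a (e.symm i), ?_, rfl⟩
        rw [Finset.mem_Icc]
        exact abs_le.1 (ha1 _)
      · rw [hp, eval_rename]
        have h3 : ((fun i => (a (e.symm i) : ℚ)) ∘ e) = fun x => (a x : ℚ) := by
          funext x
          simp
        rw [h3]
        exact ha2
    · intro a _ b _ hab
      funext x
      have h4 := congrFun hab (e x)
      simpa using h4
  have hpos : (0 : ℚ) < 2 * S + 1 := by positivity
  have h5 : (Z.card : ℚ) / ((2 * S + 1 : ℕ) : ℚ) ^ N ≤ (p.totalDegree : ℚ) / ((2 * S + 1 : ℕ) : ℚ) := by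
    exact_mod_cast h1
  rw [div_le_div_iff₀ (by positivity) (by positivity)] at h5
  have h6 : Z.card * (2 * S + 1) ≤ p.totalDegree * (2 * S + 1) ^ N := by
    exact_mod_cast h5
  calc _ ≤ Z.card * (2 * S + 1) := Nat.mul_le_mul_right _ h2
    _ ≤ p.totalDegree * (2 * S + 1) ^ N := h6
    _ ≤ d * (2 * S + 1) ^ N := Nat.mul_le_mul_right _ hpd

end Pool.Agent.KDeg
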