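import Pool.Agent.KDeg.Rank

/-!
# Generic points of a rational vector space of large dimension
-/

set_option autoImplicit false
set_option linter.unusedSectionVars false

namespace Pool.Agent.KDeg

open MvPolynomial

variable {L : Type} [Field L] [Algebra ℚ L] [CharZero L]
variable {σ τ : Type} [Fintype σ] [Fintype τ] [DecidableEq σ] [DecidableEq τ]

/-- The number of monomials of degree at most `D`. -/
lemma finrank_le (ι : Type) [Fintype ι] (D : ℕ) :
    Module.finrank ℚ (restrictTotalDegree ι ℚ D) ≤ (Fintype.card ι + D).choose D := by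
  classical
  have h1 : Module.finrank ℚ (restrictTotalDegree ι ℚ D) =
      Nat.card {b : ι →₀ ℕ | (b.sum fun _ e => e) ≤ D} :=
    Module.finrank_eq_nat_card_basis (basisRestrictSupport ℚ {b : ι →₀ ℕ | (b.sum fun _ e => e) ≤ D})
  have h2 : Nat.card {P : Option ι → ℕ // ∑ i, P i = D} = (Fintype.card ι + D).choose D := by
    rw [← Nat.card_congr (Sym.equivNatSumOfFintype (Option ι) D), Nat.card_eq_fintype_card,
      Sym.card_sym_eq_choose, Fintype.card_option]
    congr 1
    omega
  have : Finite {P : Option ι → ℕ // ∑ i, P i = D} :=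
    Finite.of_equiv _ (Sym.equivNatSumOfFintype (Option ι) D)
  rw [h1, ← h2]
  refine Nat.card_le_card_of_injective (fun b => ⟨fun i => Option.elim i (D - b.1.sum fun _ e => e)
    fun x => b.1 x, ?_⟩) ?_
  · rw [Fintype.sum_option]
    have h3 : b.1.sum (fun _ e => e) = ∑ x, b.1 x := Finsupp.sum_fintype _ _ (fun _ => rfl)
    have h4 := b.2
    simp only [Set.mem_ofPred_eq] at h4
    simp only [Option.elim]
    rw [← h3]
    omega
  · intro b c hbc
    apply Subtype.ext
    ext x
    have h5 := congrFun (Subtype.mk.inj hbc) (some x)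
    exact h5

/-- The point of the space spanned by the numbers `lam` with given coordinates. -/
noncomputable def pt {m : ℕ} (lam : Fin m → L) (a : τ × Fin m → ℚ) : τ → L :=
  fun j => ∑ i, algebraMap ℚ L (a (j, i)) * lam i

lemma mv_pt {m : ℕ} (lam : Fin m → L) (a : τ × Fin m → ℚ) (i : τ) (k : Fin m) (s : ℚ) :
    mv (pt lam a) i (lam k) (algebraMap ℚ L s) =
      pt lam (fun x => a x + if x = (i, k) then s else 0) := by
  funext j
  unfold mv pt
  simp only [map_add, add_mul, Finset.sum_add_distrib]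
  congr 1
  by_cases hj : j = i
  · subst hj
    rw [if_pos rfl, Finset.sum_eq_single k]
    · simp
    · intro x _ hx
      simp [hx]
    · intro h
      exact absurd (Finset.mem_univ _) h
  · rw [if_neg hj]
    symm
    apply Finset.sum_eq_zero
    intro x _
    simp [hj]

/-- The values at `(u, θ)` as polynomials in the coordinates of `u`. -/
noncomputable def gen {m : ℕ} (θ : σ → L) (lam : Fin m → L) :
    MvPolynomial (τ ⊕ σ) ℚ →ₐ[ℚ] MvPolynomial (τ × Fin m) L :=
  aeval (Sum.elim (fun j => ∑ i, X (j, i) * C (lam i)) fun x => C (θ x))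

lemma eval_gen {m : ℕ} (θ : σ → L) (lam : Fin m → L) (a : τ × Fin m → ℚ)
    (G : MvPolynomial (τ ⊕ σ) ℚ) : eval (fun x => algebraMap ℚ L (a x)) (gen θ lam G) =
      aeval (Sum.elim (pt lam a) θ) G := by
  unfold gen
  induction G using MvPolynomial.induction_on with
  | C a => rw [aeval_C, aeval_C, MvPolynomial.algebraMap_apply, eval_C]
  | add p q hp hq => simp only [map_add, hp, hq]
  | mul_X p x hp =>
    rw [map_mul, map_mul, hp, map_mul, aeval_X, aeval_X]
    rcases x with x | x
    · simp [pt, map_sum]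
    · simp

lemma totalDegree_gen_le {m : ℕ} (θ : σ → L) (lam : Fin m → L) (G : MvPolynomial (τ ⊕ σ) ℚ) :
    (gen θ lam G : MvPolynomial (τ × Fin m) L).totalDegree ≤ G.totalDegree := by
  unfold gen
  refine totalDegree_aeval_le _ (fun x => ?_) G
  rcases x with x | x
  · rw [Sum.elim_inl]
    refine totalDegree_finsetSum_le (fun i _ => ?_)
    refine (totalDegree_mul _ _).trans ?_
    rw [totalDegree_X, totalDegree_C]
  · rw [Sum.elim_inr, totalDegree_C]
    exact Nat.zero_le 1

/-- At a generic point all relations of degree at most `D` come from relations between the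
numbers `θ`. -/
theorem generic {m : ℕ} (D : ℕ) (θ : σ → L) (lam : Fin m → L) (hlam : LinearIndependent ℚ lam)
    (hm : (Fintype.card τ + Fintype.card σ + D).choose D ≤ m) :
    ∃ Δ : MvPolynomial (τ × Fin m) ℚ, Δ ≠ 0 ∧
      Δ.totalDegree ≤ (Fintype.card τ + Fintype.card σ + D).choose D * D ∧
      ∀ a : τ × Fin m → ℚ, eval a Δ ≠ 0 →
      ∀ P : MvPolynomial (τ ⊕ σ) ℚ, P.totalDegree ≤ D →
        aeval (Sum.elim (pt lam a) θ) P = 0 → sub θ P = 0 := by
  classical
  have hm' : Module.finrank ℚ (restrictTotalDegree (τ ⊕ σ) ℚ D) ≤ m := by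
    refine le_trans (finrank_le (τ ⊕ σ) D) ?_
    rw [Fintype.card_sum]
    exact hm
  have hbd : ∀ a : τ × Fin m → ℚ, Module.finrank ℚ (V D θ (pt lam a)) ≤
      (Fintype.card τ + Fintype.card σ + D).choose D := by
    intro a
    rw [← Fintype.card_sum]
    refine le_trans ?_ (finrank_le (τ ⊕ σ) D)
    have h1 := LinearMap.finrank_range_add_finrank_ker (evD D θ (pt lam a))
    rw [range_evD] at h1
    omega
  obtain ⟨a₀, ha₀⟩ : ∃ a₀ : τ × Fin m → ℚ, ∀ a : τ × Fin m → ℚ,
      Module.finrank ℚ (V D θ (pt lam a)) ≤ Module.finrank ℚ (V D θ (pt lam a₀)) := by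
    have hb : BddAbove (Set.range fun a : τ × Fin m → ℚ =>
        Module.finrank ℚ (V D θ (pt lam a))) := by
      refine ⟨(Fintype.card τ + Fintype.card σ + D).choose D, ?_⟩
      rintro _ ⟨a, rfl⟩
      exact hbd a
    have h2 := Nat.sSup_mem (s := Set.range fun a : τ × Fin m → ℚ =>
        Module.finrank ℚ (V D θ (pt lam a))) ⟨_, ⟨0, rfl⟩⟩ hb
    obtain ⟨a₀, h3⟩ := h2
    refine ⟨a₀, fun a => ?_⟩
    have h4 : Module.finrank ℚ (V D θ (pt lam a)) ≤
        sSup (Set.range fun a : τ × Fin m → ℚ => Module.finrank ℚ (V D θ (pt lam a))) :=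
      le_csSup hb ⟨a, rfl⟩
    rw [← h3] at h4
    exact h4
  set r := Module.finrank ℚ (V D θ (pt lam a₀)) with hr
  let b := Module.finBasis ℚ (V D θ (pt lam a₀))
  have hG : ∀ l : Fin r, ∃ G : MvPolynomial (τ ⊕ σ) ℚ, G.totalDegree ≤ D ∧
      aeval (Sum.elim (pt lam a₀) θ) G = (b l : L) := by
    intro l
    obtain ⟨G, hG1, hG2⟩ := (b l).2
    exact ⟨G, (mem_restrictTotalDegree _ _ _).1 hG1, hG2⟩
  choose G hG1 hG2 using hG
  have hli : LinearIndependent ℚ fun l =>
      eval (fun x => algebraMap ℚ L (a₀ x)) (gen θ lam (G l)) := by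
    have h5 : (fun l => eval (fun x => algebraMap ℚ L (a₀ x)) (gen θ lam (G l))) =
        fun l => (b l : L) := by
      funext l
      rw [eval_gen, hG2]
    rw [h5]
    exact b.linearIndependent.map' (Submodule.subtype _) (Submodule.ker_subtype _)
  obtain ⟨Δ, hΔ0, hΔd, hΔ⟩ := generic_indep_deg (fun l => gen θ lam (G l)) a₀ hli
  refine ⟨Δ, ?_, ?_, fun a ha P hP h0 => ?_⟩
  · intro h
    rw [h, map_zero] at hΔ0
    exact hΔ0 rfl
  · refine (hΔd D (fun l => ?_)).trans (Nat.mul_le_mul_right D (hbd a₀))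
    exact (totalDegree_gen_le θ lam (G l)).trans (hG1 l)
  · have h6 := hΔ a ha
    have hmem : ∀ l, eval (fun x => algebraMap ℚ L (a x)) (gen θ lam (G l)) ∈
        V D θ (pt lam a) := by
      intro l
      rw [eval_gen]
      exact ⟨G l, (mem_restrictTotalDegree _ _ _).2 (hG1 l), rfl⟩
    have hli2 : LinearIndependent ℚ fun l =>
        (⟨eval (fun x => algebraMap ℚ L (a x)) (gen θ lam (G l)), hmem l⟩ :
          V D θ (pt lam a)) := LinearIndependent.of_comp (Submodule.subtype _) h6
    have h7 := hli2.fintype_card_le_finrank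
    rw [Fintype.card_fin] at h7
    have hmax : ∀ (i : τ) (k : Fin m) (s : ℚ),
        Module.finrank ℚ (V D θ (mv (pt lam a) i (lam k) (algebraMap ℚ L s))) ≤
          Module.finrank ℚ (V D θ (pt lam a)) := by
      intro i k s
      rw [mv_pt]
      exact (ha₀ _).trans h7
    exact key3 D θ (pt lam a) (fun i P hP h0 => key2 D θ (pt lam a) i lam hlam hm'
      (hmax i) P hP h0) D P hP hP h0

end Pool.Agent.KDeg
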