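import Pool.Agent.KDeg.Gen
import Pool.Agent.KAA.PI

/-!
# Logarithms of multiplicatively independent numbers
-/

set_option autoImplicit false
set_option linter.unusedSectionVars false

namespace Pool.Agent.KDeg

open MvPolynomial

/-- Logarithms of multiplicatively independent numbers are linearly independent. -/
lemma log_indep {m : ℕ} (α : Fin m → ℂ) (h0 : ∀ i, α i ≠ 0)
    (hα : ∀ c : Fin m → ℤ, ∏ i, α i ^ c i = 1 → c = 0) :
    LinearIndependent ℚ fun i => Complex.log (α i) := by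
  rw [← LinearIndependent.iff_fractionRing ℤ ℚ, Fintype.linearIndependent_iff]
  intro c hc i
  have h1 : ∏ i, α i ^ c i = 1 := by
    rw [← Complex.exp_zero, ← hc, Complex.exp_sum]
    refine Finset.prod_congr rfl (fun i _ => ?_)
    rw [zsmul_eq_mul, Complex.exp_int_mul, Complex.exp_log (h0 i)]
  exact congrFun (hα c h1) i

/-- The shift of variables. -/
noncomputable def sh {n k : ℕ} (b : Fin n → ℤ) :
    MvPolynomial (Fin n ⊕ Fin (k + 1)) ℚ →ₐ[ℚ] MvPolynomial (Fin n ⊕ Fin (k + 1)) ℚ :=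
  aeval (Sum.elim (fun j => X (Sum.inl j) + C (b j : ℚ) * X (Sum.inr 0))
    fun x => X (Sum.inr x))

lemma totalDegree_sh {n k : ℕ} (b : Fin n → ℤ) (P : MvPolynomial (Fin n ⊕ Fin (k + 1)) ℚ) :
    (sh b P).totalDegree ≤ P.totalDegree := by
  unfold sh
  refine totalDegree_aeval_le _ (fun x => ?_) P
  rcases x with x | x
  · rw [Sum.elim_inl]
    refine (totalDegree_add _ _).trans (max_le ?_ ?_)
    · rw [totalDegree_X]
    · refine (totalDegree_mul _ _).trans ?_
      rw [totalDegree_X, totalDegree_C]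
  · rw [Sum.elim_inr, totalDegree_X]

lemma aeval_sh {n k : ℕ} (b : Fin n → ℤ) (u : Fin n → ℂ) (θ : Fin (k + 1) → ℂ)
    (P : MvPolynomial (Fin n ⊕ Fin (k + 1)) ℚ) :
    aeval (Sum.elim u θ) (sh b P) = aeval (Sum.elim (fun j => u j + (b j : ℂ) * θ 0) θ) P := by
  unfold sh
  induction P using MvPolynomial.induction_on with
  | C a => simp
  | add p q hp hq => simp only [map_add, hp, hq]
  | mul_X p x hp =>
    rw [map_mul, map_mul, hp, map_mul, aeval_X, aeval_X]
    rcases x with x | x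
    · simp
    · simp

lemma sub_sh {n k : ℕ} (b : Fin n → ℤ) (θ : Fin (k + 1) → ℂ)
    (P : MvPolynomial (Fin n ⊕ Fin (k + 1)) ℚ) :
    (aeval (fun j => X j - C ((b j : ℂ) * θ 0)) (sub θ (sh b P)) : MvPolynomial (Fin n) ℂ) =
      sub θ P := by
  unfold sh sub
  induction P using MvPolynomial.induction_on with
  | C a => simp
  | add p q hp hq => simp only [map_add, hp, hq]
  | mul_X p x hp =>
    rw [map_mul, map_mul, map_mul, hp, map_mul, aeval_X, aeval_X]
    rcases x with x | x
    · simp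
    · simp

lemma sub_injective {n k : ℕ} (θ : Fin k → ℂ) (hθ : AlgebraicIndependent ℚ θ)
    (P : MvPolynomial (Fin n ⊕ Fin k) ℚ) (h : sub θ P = 0) : P = 0 := by
  have h1 : ∀ Q : MvPolynomial (Fin n ⊕ Fin k) ℚ,
      sub θ Q = map (aeval θ : MvPolynomial (Fin k) ℚ →ₐ[ℚ] ℂ).toRingHom
        (sumAlgEquiv ℚ (Fin n) (Fin k) Q) := by
    intro Q
    unfold sub
    induction Q using MvPolynomial.induction_on with
    | C a =>
      rw [sumAlgEquiv_C_inl, map_C, aeval_C, MvPolynomial.algebraMap_apply]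
      simp
    | add p q hp hq => simp only [map_add, hp, hq]
    | mul_X p x hp =>
      rw [map_mul, map_mul, map_mul, hp, aeval_X]
      rcases x with x | x
      · rw [sumAlgEquiv_X_inl]; simp
      · rw [sumAlgEquiv_X_inr]; simp
  rw [h1] at h
  have h2 := map_injective (σ := Fin n) (aeval θ : MvPolynomial (Fin k) ℚ →ₐ[ℚ] ℂ).toRingHom hθ
  have h3 := h2 (h.trans (map_zero _).symm)
  exact (map_eq_zero_iff (sumAlgEquiv ℚ (Fin n) (Fin k)) (sumAlgEquiv ℚ (Fin n) (Fin k)).injective).1 h3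

end Pool.Agent.KDeg
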