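import Mathlib

/-!
# Linear functionals applied to the coefficients of polynomials

If the values of finitely many polynomials over a field `L` of characteristic zero at one rational
point are linearly independent over `ℚ`, then they are so at all rational points outside the zero
set of a nonzero polynomial with rational coefficients.
-/

set_option autoImplicit false

namespace Pool.Agent.KDeg

open MvPolynomial

variable {L : Type} [Field L] [Algebra ℚ L]

/-- Linearly independent vectors have a dual family of functionals. -/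
lemma exists_dual {r : ℕ} {v : Fin r → L} (hv : LinearIndependent ℚ v) :
    ∃ f : Fin r → (L →ₗ[ℚ] ℚ), ∀ i j, f i (v j) = if i = j then 1 else 0 := by
  classical
  have h : ∀ i : Fin r, ∃ g : L →ₗ[ℚ] ℚ, ∀ j, g (v j) = if i = j then 1 else 0 := by
    intro i
    obtain ⟨g, hg⟩ := LinearMap.exists_extend
      ((Finsupp.lapply i : (Fin r →₀ ℚ) →ₗ[ℚ] ℚ).comp hv.repr)
    refine ⟨g, fun j => ?_⟩
    have hj : v j ∈ Submodule.span ℚ (Set.range v) := Submodule.subset_span ⟨j, rfl⟩
    have h1 : g (v j) = (g.comp (Submodule.subtype _)) ⟨v j, hj⟩ := rfl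
    rw [h1, hg, LinearMap.comp_apply]
    have h2 : hv.repr ⟨v j, hj⟩ = Finsupp.single j 1 := hv.repr_eq_single j _ rfl
    rw [h2, Finsupp.lapply_apply, Finsupp.single_apply]
    by_cases hij : i = j
    · rw [if_pos hij, if_pos hij.symm]
    · rw [if_neg hij, if_neg (fun h => hij h.symm)]
  choose f hf using h
  exact ⟨f, hf⟩

/-- A functional applied to the coefficients of a polynomial. -/
noncomputable def cf {ι : Type} (f : L →ₗ[ℚ] ℚ) (p : MvPolynomial ι L) : MvPolynomial ι ℚ :=
  ∑ b ∈ p.support, monomial b (f (p.coeff b))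

lemma eval_cf {ι : Type} (f : L →ₗ[ℚ] ℚ) (p : MvPolynomial ι L) (a : ι → ℚ) :
    eval a (cf f p) = f (eval (fun i => algebraMap ℚ L (a i)) p) := by
  unfold cf
  rw [map_sum, eval_eq (fun i => algebraMap ℚ L (a i)) p, map_sum]
  refine Finset.sum_congr rfl (fun b _ => ?_)
  rw [eval_monomial, Finsupp.prod]
  have h1 : p.coeff b * ∏ i ∈ b.support, algebraMap ℚ L (a i) ^ b i =
      (∏ i ∈ b.support, a i ^ b i) • p.coeff b := by
    rw [Algebra.smul_def, map_prod, mul_comm]
    congr 1
    exact Finset.prod_congr rfl (fun i _ => (map_pow _ _ _).symm)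
  rw [h1, map_smul, smul_eq_mul, mul_comm]

lemma totalDegree_cf_le {ι : Type} (f : L →ₗ[ℚ] ℚ) (p : MvPolynomial ι L) :
    (cf f p).totalDegree ≤ p.totalDegree := by
  unfold cf
  refine totalDegree_finsetSum_le (fun b hb => ?_)
  exact (totalDegree_monomial_le _ _).trans (le_totalDegree hb)

/-- A substitution by polynomials of degree at most one does not increase the degree. -/
lemma totalDegree_aeval_le {ι κ : Type} (f : ι → MvPolynomial κ L)
    (hf : ∀ i, (f i).totalDegree ≤ 1) (P : MvPolynomial ι ℚ) :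
    (aeval f P).totalDegree ≤ P.totalDegree := by
  rw [aeval_def, eval₂_eq]
  refine totalDegree_finsetSum_le (fun b hb => ?_)
  refine (totalDegree_mul _ _).trans ?_
  have h1 : (algebraMap ℚ (MvPolynomial κ L) (coeff b P)).totalDegree = 0 := by
    rw [MvPolynomial.algebraMap_apply, totalDegree_C]
  rw [h1, zero_add]
  refine (totalDegree_finsetProd _ _).trans ?_
  refine le_trans ?_ (le_totalDegree hb)
  refine Finset.sum_le_sum (fun i _ => ?_)
  refine (totalDegree_pow _ _).trans ((Nat.mul_le_mul_left _ (hf i)).trans ?_)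
  rw [mul_one]

/-- The degree of a determinant. -/
lemma totalDegree_det_le {ι : Type} {r D : ℕ} (M : Matrix (Fin r) (Fin r) (MvPolynomial ι ℚ))
    (h : ∀ i j, (M i j).totalDegree ≤ D) : M.det.totalDegree ≤ r * D := by
  rw [Matrix.det_apply]
  refine totalDegree_finsetSum_le (fun s _ => ?_)
  have h1 : (Equiv.Perm.sign s • ∏ i, M (s i) i).totalDegree ≤ (∏ i, M (s i) i).totalDegree := by
    rcases Int.units_eq_one_or (Equiv.Perm.sign s) with h | h
    · rw [h, one_smul]
    · rw [h]
      have : ((-1 : ℤˣ) • ∏ i, M (s i) i) = -∏ i, M (s i) i := by simp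
      rw [this, totalDegree_neg]
  refine h1.trans ((totalDegree_finsetProd _ _).trans ?_)
  refine (Finset.sum_le_card_nsmul _ _ D (fun i _ => h _ _)).trans ?_
  rw [Finset.card_univ, Fintype.card_fin, smul_eq_mul]

/-- Independence of values is generic. -/
lemma generic_indep_deg {ι : Type} {r : ℕ} (G : Fin r → MvPolynomial ι L) (a₀ : ι → ℚ)
    (h : LinearIndependent ℚ fun l => eval (fun i => algebraMap ℚ L (a₀ i)) (G l)) :
    ∃ Δ : MvPolynomial ι ℚ, eval a₀ Δ ≠ 0 ∧
      (∀ D : ℕ, (∀ l, (G l).totalDegree ≤ D) → Δ.totalDegree ≤ r * D) ∧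
      ∀ a : ι → ℚ, eval a Δ ≠ 0 →
        LinearIndependent ℚ fun l => eval (fun i => algebraMap ℚ L (a i)) (G l) := by
  classical
  obtain ⟨f, hf⟩ := exists_dual h
  set M : Matrix (Fin r) (Fin r) (MvPolynomial ι ℚ) := Matrix.of fun i l => cf (f i) (G l) with hM
  have hdet : ∀ a : ι → ℚ, eval a M.det =
      (Matrix.of fun i l => f i (eval (fun i => algebraMap ℚ L (a i)) (G l)) :
        Matrix (Fin r) (Fin r) ℚ).det := by
    intro a
    rw [RingHom.map_det]
    congr 1
    ext i l
    simp only [hM, RingHom.mapMatrix_apply, Matrix.map_apply, Matrix.of_apply, eval_cf]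
  refine ⟨M.det, ?_, fun D hD => totalDegree_det_le M fun i l => ?_, fun a ha => ?_⟩
  · rw [hdet]
    have h1 : (Matrix.of fun i l => f i (eval (fun i => algebraMap ℚ L (a₀ i)) (G l)) :
        Matrix (Fin r) (Fin r) ℚ) = 1 := by
      ext i l
      rw [Matrix.of_apply, hf, Matrix.one_apply]
    rw [h1, Matrix.det_one]
    exact one_ne_zero
  · exact (totalDegree_cf_le _ _).trans (hD l)
  · rw [hdet] at ha
    rw [Fintype.linearIndependent_iff]
    intro c hc
    have h2 : (Matrix.of fun i l => f i (eval (fun i => algebraMap ℚ L (a i)) (G l)) :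
        Matrix (Fin r) (Fin r) ℚ).mulVec c = 0 := by
      ext i
      simp only [Matrix.mulVec, dotProduct, Matrix.of_apply, Pi.zero_apply]
      have h3 := congrArg (f i) hc
      rw [map_sum, map_zero] at h3
      rw [← h3]
      refine Finset.sum_congr rfl (fun l _ => ?_)
      rw [map_smul, smul_eq_mul, mul_comm]
    have h4 := Matrix.eq_zero_of_mulVec_eq_zero ha h2
    intro l
    exact congrFun h4 l

lemma generic_indep {ι : Type} {r : ℕ} (G : Fin r → MvPolynomial ι L) (a₀ : ι → ℚ)
    (h : LinearIndependent ℚ fun l => eval (fun i => algebraMap ℚ L (a₀ i)) (G l)) :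
    ∃ Δ : MvPolynomial ι ℚ, eval a₀ Δ ≠ 0 ∧ ∀ a : ι → ℚ, eval a Δ ≠ 0 →
      LinearIndependent ℚ fun l => eval (fun i => algebraMap ℚ L (a i)) (G l) := by
  obtain ⟨Δ, h1, _, h2⟩ := generic_indep_deg G a₀ h
  exact ⟨Δ, h1, h2⟩

end Pool.Agent.KDeg
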