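import Pool.Agent.KDeg.Core

/-!
# The rank argument
-/

set_option autoImplicit false
set_option linter.unusedSectionVars false

namespace Pool.Agent.KDeg

open MvPolynomial

variable {L : Type} [Field L] [Algebra ℚ L] [CharZero L]
variable {σ τ : Type} [Fintype σ] [Fintype τ] [DecidableEq σ] [DecidableEq τ]

/-- The values at `(u, θ)` of the polynomials of degree at most `D`. -/
noncomputable def V (D : ℕ) (θ : σ → L) (u : τ → L) : Submodule ℚ L :=
  (restrictTotalDegree (τ ⊕ σ) ℚ D).map (aeval (Sum.elim u θ)).toLinearMap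

instance (D : ℕ) (θ : σ → L) (u : τ → L) : Module.Finite ℚ (V D θ u) := by
  unfold V
  infer_instance

/-- The point `u` moved by `s` times `w` in the coordinate `i`. -/
def mv (u : τ → L) (i : τ) (w s : L) : τ → L := fun j => u j + if j = i then s * w else 0

/-- The one-parameter family of values. -/
noncomputable def fam (θ : σ → L) (u : τ → L) (i : τ) (w : L) :
    MvPolynomial (τ ⊕ σ) ℚ →ₐ[ℚ] Polynomial L :=
  aeval (Sum.elim (fun j => Polynomial.C (u j) + if j = i then Polynomial.X * Polynomial.C w else 0)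
    fun x => Polynomial.C (θ x))

lemma eval_fam (θ : σ → L) (u : τ → L) (i : τ) (w s : L) (P : MvPolynomial (τ ⊕ σ) ℚ) :
    (fam θ u i w P).eval s = aeval (Sum.elim (mv u i w s) θ) P := by
  unfold fam
  induction P using MvPolynomial.induction_on with
  | C a =>
    rw [aeval_C, aeval_C, Polynomial.algebraMap_apply, Polynomial.eval_C]
  | add p q hp hq => simp only [map_add, Polynomial.eval_add, hp, hq]
  | mul_X p x hp =>
    rw [map_mul, Polynomial.eval_mul, hp, map_mul, aeval_X, aeval_X]
    rcases x with x | x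
    · simp only [Sum.elim_inl, mv]
      by_cases hx : x = i
      · simp only [hx, if_true, Polynomial.eval_add, Polynomial.eval_C, Polynomial.eval_mul,
          Polynomial.eval_X]
      · simp [hx]
    · simp

lemma mv_zero (u : τ → L) (i : τ) (w : L) : mv u i w 0 = u := by
  funext j
  simp [mv]

lemma deriv_fam (θ : σ → L) (u : τ → L) (i : τ) (w : L) (P : MvPolynomial (τ ⊕ σ) ℚ) :
    (fam θ u i w P).derivative = fam θ u i w (pderiv (Sum.inl i) P) * Polynomial.C w := by
  unfold fam
  induction P using MvPolynomial.induction_on with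
  | C a =>
    rw [pderiv_C, map_zero, zero_mul, aeval_C, Polynomial.algebraMap_apply,
      Polynomial.derivative_C]
  | add p q hp hq => simp only [map_add, hp, hq, add_mul]
  | mul_X p x hp =>
    rw [map_mul, Polynomial.derivative_mul, hp, pderiv_mul, map_add, map_mul, map_mul, add_mul,
      mul_right_comm]
    congr 1
    rw [mul_assoc]
    congr 1
    rcases x with x | x
    · rw [pderiv_X, aeval_X, Sum.elim_inl]
      by_cases hx : x = i
      · subst hx; simp
      · simp [hx]
    · rw [pderiv_X, aeval_X, Sum.elim_inr]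
      simp

/-- If `u` has maximal rank, the derivatives of a relation, times the directions, are values. -/
lemma key1 (D : ℕ) (θ : σ → L) (u : τ → L) (i : τ) (w : L)
    (hmax : ∀ s : ℚ, Module.finrank ℚ (V D θ (mv u i w (algebraMap ℚ L s))) ≤
      Module.finrank ℚ (V D θ u))
    (P : MvPolynomial (τ ⊕ σ) ℚ) (hP : P.totalDegree ≤ D) (h0 : aeval (Sum.elim u θ) P = 0) :
    w * aeval (Sum.elim u θ) (pderiv (Sum.inl i) P) ∈ V D θ u := by
  by_contra hnot
  set r := Module.finrank ℚ (V D θ u) with hr
  let b := Module.finBasis ℚ (V D θ u)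
  have hG : ∀ l : Fin r, ∃ G : MvPolynomial (τ ⊕ σ) ℚ, G.totalDegree ≤ D ∧
      aeval (Sum.elim u θ) G = (b l : L) := by
    intro l
    obtain ⟨G, hG1, hG2⟩ := (b l).2
    exact ⟨G, (mem_restrictTotalDegree _ _ _).1 hG1, hG2⟩
  choose G hG1 hG2 using hG
  set p := fam θ u i w P with hp
  have hp0 : p.coeff 0 = 0 := by
    rw [Polynomial.coeff_zero_eq_eval_zero, hp, eval_fam, mv_zero, h0]
  have hpq : p = Polynomial.X * p.divX := by
    have h1 := Polynomial.X_mul_divX_add p
    rw [hp0, map_zero, add_zero] at h1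
    exact h1.symm
  have hq0 : p.divX.eval 0 = w * aeval (Sum.elim u θ) (pderiv (Sum.inl i) P) := by
    have h2 : p.derivative.eval 0 = p.divX.eval 0 := by
      conv_lhs => rw [hpq]
      simp
    rw [← h2, hp, deriv_fam, Polynomial.eval_mul, Polynomial.eval_C, eval_fam, mv_zero, mul_comm]
  set v : Fin (r + 1) → Polynomial L := Fin.snoc (fun l => fam θ u i w (G l)) p.divX with hv
  have hli : LinearIndependent ℚ fun l => (v l).eval 0 := by
    have h3 : (fun l => (v l).eval 0) = Fin.snoc (fun l : Fin r => (b l : L))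
        (w * aeval (Sum.elim u θ) (pderiv (Sum.inl i) P)) := by
      funext l
      refine Fin.lastCases ?_ (fun l => ?_) l
      · simp only [hv, Fin.snoc_last]
        exact hq0
      · simp only [hv, Fin.snoc_castSucc]
        rw [eval_fam, mv_zero, hG2]
    rw [h3, linearIndependent_finSnoc]
    refine ⟨?_, ?_⟩
    · exact b.linearIndependent.map' (Submodule.subtype _) (Submodule.ker_subtype _)
    · intro hmem
      apply hnot
      have h4 : Submodule.span ℚ (Set.range fun l : Fin r => (b l : L)) ≤ V D θ u := by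
        rw [Submodule.span_le]
        rintro _ ⟨l, rfl⟩
        exact (b l).2
      exact h4 hmem
  obtain ⟨s, hs0, hs⟩ := generic_indep_one v hli
  have hmem : ∀ l, (v l).eval (algebraMap ℚ L s) ∈ V D θ (mv u i w (algebraMap ℚ L s)) := by
    intro l
    refine Fin.lastCases ?_ (fun l => ?_) l
    · simp only [hv, Fin.snoc_last]
      have h5 : p.eval (algebraMap ℚ L s) ∈ V D θ (mv u i w (algebraMap ℚ L s)) := by
        rw [hp, eval_fam]
        exact ⟨P, (mem_restrictTotalDegree _ _ _).2 hP, rfl⟩
      have h6 : p.divX.eval (algebraMap ℚ L s) = s⁻¹ • p.eval (algebraMap ℚ L s) := by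
        conv_rhs => rw [hpq]
        rw [Polynomial.eval_mul, Polynomial.eval_X, Algebra.smul_def, ← mul_assoc, ← map_mul,
          inv_mul_cancel₀ hs0, map_one, one_mul]
      rw [h6]
      exact Submodule.smul_mem _ _ h5
    · simp only [hv, Fin.snoc_castSucc]
      rw [eval_fam]
      exact ⟨G l, (mem_restrictTotalDegree _ _ _).2 (hG1 l), rfl⟩
  have hli2 : LinearIndependent ℚ fun l =>
      (⟨(v l).eval (algebraMap ℚ L s), hmem l⟩ : V D θ (mv u i w (algebraMap ℚ L s))) :=
    LinearIndependent.of_comp (Submodule.subtype _) hs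
  have h7 := hli2.fintype_card_le_finrank
  rw [Fintype.card_fin] at h7
  have h8 := hmax s
  omega

/-- The map from polynomials of degree at most `D` to values. -/
noncomputable def evD (D : ℕ) (θ : σ → L) (u : τ → L) :
    restrictTotalDegree (τ ⊕ σ) ℚ D →ₗ[ℚ] L :=
  (aeval (Sum.elim u θ)).toLinearMap.comp (Submodule.subtype _)

lemma range_evD (D : ℕ) (θ : σ → L) (u : τ → L) : LinearMap.range (evD D θ u) = V D θ u := by
  unfold evD V
  rw [LinearMap.range_comp, Submodule.range_subtype]

/-- If moreover there are many directions, the derivatives of a relation are relations. -/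
lemma key2 (D : ℕ) (θ : σ → L) (u : τ → L) (i : τ) {m : ℕ} (lam : Fin m → L)
    (hlam : LinearIndependent ℚ lam)
    (hm : Module.finrank ℚ (restrictTotalDegree (τ ⊕ σ) ℚ D) ≤ m)
    (hmax : ∀ (k : Fin m) (s : ℚ), Module.finrank ℚ (V D θ (mv u i (lam k) (algebraMap ℚ L s))) ≤
      Module.finrank ℚ (V D θ u))
    (P : MvPolynomial (τ ⊕ σ) ℚ) (hP : P.totalDegree ≤ D) (h0 : aeval (Sum.elim u θ) P = 0) :
    aeval (Sum.elim u θ) (pderiv (Sum.inl i) P) = 0 := by
  by_contra hQ
  set Q := aeval (Sum.elim u θ) (pderiv (Sum.inl i) P) with hQdef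
  have hmem : ∀ k : Fin m, lam k * Q ∈ V D θ u := fun k =>
    key1 D θ u i (lam k) (hmax k) P hP h0
  have hli : LinearIndependent ℚ fun k : Fin m => lam k * Q := by
    have h1 := hlam.map' (LinearMap.mulRight ℚ Q)
      (LinearMap.ker_eq_bot.2 (mul_left_injective₀ hQ))
    exact h1
  have hli2 : LinearIndependent ℚ fun k : Fin m => (⟨lam k * Q, hmem k⟩ : V D θ u) :=
    LinearIndependent.of_comp (Submodule.subtype _) hli
  have h2 := hli2.fintype_card_le_finrank
  rw [Fintype.card_fin] at h2
  have h3 := LinearMap.finrank_range_add_finrank_ker (evD D θ u)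
  rw [range_evD] at h3
  have hP0 : P ≠ 0 := by
    intro h
    apply hQ
    rw [hQdef, h, map_zero, map_zero]
  have h4 : 0 < Module.finrank ℚ (LinearMap.ker (evD D θ u)) := by
    have hne : (⟨⟨P, (mem_restrictTotalDegree _ _ _).2 hP⟩, h0⟩ :
        LinearMap.ker (evD D θ u)) ≠ 0 := by
      intro h
      apply hP0
      exact congrArg (fun x : LinearMap.ker (evD D θ u) =>
        ((x : restrictTotalDegree (τ ⊕ σ) ℚ D) : MvPolynomial (τ ⊕ σ) ℚ)) h
    have : Nontrivial (LinearMap.ker (evD D θ u)) := nontrivial_of_ne _ _ hne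
    exact Module.finrank_pos (R := ℚ) (M := LinearMap.ker (evD D θ u))
  omega

/-- All relations of degree at most `D` come from relations between the numbers `θ`. -/
lemma key3 (D : ℕ) (θ : σ → L) (u : τ → L)
    (h : ∀ (i : τ) (P : MvPolynomial (τ ⊕ σ) ℚ), P.totalDegree ≤ D →
      aeval (Sum.elim u θ) P = 0 → aeval (Sum.elim u θ) (pderiv (Sum.inl i) P) = 0) :
    ∀ (d : ℕ) (P : MvPolynomial (τ ⊕ σ) ℚ), P.totalDegree ≤ d → P.totalDegree ≤ D →
      aeval (Sum.elim u θ) P = 0 → sub θ P = 0 := by
  intro d
  induction d with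
  | zero =>
    intro P hP hPD h0
    have h1 : P = C (coeff 0 P) := (totalDegree_eq_zero_iff_eq_C).1 (Nat.le_zero.1 hP)
    rw [h1, aeval_C] at h0
    have h2 : coeff 0 P = 0 := by
      have := (algebraMap ℚ L).injective (h0.trans (map_zero _).symm)
      exact this
    rw [h1, h2, map_zero, map_zero]
  | succ d ih =>
    intro P hP hPD h0
    have h1 : ∀ i : τ, pderiv i (sub θ P) = 0 := by
      intro i
      rw [← sub_pderiv]
      by_cases hz : pderiv (Sum.inl i) P = 0
      · rw [hz, map_zero]
      · have h2 := totalDegree_pderiv (Sum.inl i) P hz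
        exact ih _ (by omega) (by omega) (h i P hPD h0)
    have h3 := eq_C_of_pderiv _ h1
    have h4 := eval_sub θ u P
    rw [h0, h3, eval_C] at h4
    rw [h3, h4, map_zero]

end Pool.Agent.KDeg
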